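import Pool.Agent.W2helper26.PR.Stm

/-!
# Project PR, piece GAMC: the guide strings are computed in polynomial time
-/

set_option autoImplicit false

namespace Pool.Agent.W2helper17.PR

open Pool.Agent.W2helper26.PB Pool.Agent.W2helper26.PR
open Pool.Agent.NPC

/-! ### numbers cut at `K` -/

/-- iterated doubling, cut at `K` -/
def dbl (K n s : ℕ) : ℕ := (fun t => min (2 * t) K)^[n] (min s K)

lemma dbl_eq (K n s : ℕ) : dbl K n s = min (2 ^ n * s) K := by
  unfold dbl
  induction n with
  | zero => simp
  | succ n ih =>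
    rw [Function.iterate_succ_apply', ih, pow_succ, mul_comm _ 2, mul_assoc]
    omega

lemma dbl_le (K n s : ℕ) : dbl K n s ≤ K := by
  rw [dbl_eq]; exact min_le_right _ _

lemma min_pow (E K : ℕ) : min (2 ^ (min E K)) K = min (2 ^ E) K := by
  rcases le_total E K with h | h
  · rw [min_eq_left h]
  · have h1 : K < 2 ^ K := Nat.lt_two_pow_self
    have h2 : 2 ^ K ≤ 2 ^ E := Nat.pow_le_pow_right (by norm_num) h
    rw [min_eq_right h]
    omega

/-- the levels, cut at `K` -/
def levc (K c₀ : ℕ) (c : List Bool) (d m : ℕ) : ℕ :=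
  dbl K (dbl K (dbl K (c₀ + 2 * c.length + d) m) 1) 1

lemma levc_eq (K c₀ : ℕ) (c : List Bool) (d m : ℕ) :
    levc K c₀ c d m = min (lev c₀ (c, d) m) K := by
  unfold levc lev
  rw [dbl_eq, dbl_eq, dbl_eq, mul_one, mul_one, mul_comm (2 ^ (c₀ + 2 * c.length + d)) m,
    min_pow (m * 2 ^ (c₀ + 2 * c.length + d)) K, min_pow]

section poly
variable {α : Type} [TEnc α]

lemma upoly_dbl {K n s : α → ℕ} (hK : UPoly K) (hn : UPoly n) (hs : UPoly s) :
    UPoly (fun a => dbl (K a) (n a) (s a)) := by
  obtain ⟨p, hp⟩ := hK.toPoly.sz_le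
  have h1 : NPC.Poly (fun a => dbl (K a) (n a) (s a)) := by
    refine (NPC.Poly.iterLen (l := fun a => List.replicate (n a) ())
      (s := fun a => min (s a) (K a)) (F := fun a t => min (2 * t) (K a)) hn
      (NPC.Poly.min hs.toPoly hK.toPoly)
      (NPC.Poly.min (NPC.Poly.mul (NPC.Poly.const 2) (NPC.Poly.snd NPC.Poly.id))
        (hK.toPoly.comp (NPC.Poly.fst NPC.Poly.id))) (2 * p) ?_).congr fun a => ?_
    · intro a k _
      have h := dbl_le (K a) k (s a)
      unfold dbl at h
      have h2 := sz_nat_mono_le h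
      have h3 := hp a
      rw [Polynomial.eval_mul, show (2 : Polynomial ℕ) = Polynomial.C 2 from rfl,
        Polynomial.eval_C]
      omega
    · rw [List.length_replicate]
      rfl
  exact UPoly.of_le h1 hK fun a => dbl_le _ _ _

lemma upoly_levc (c₀ : ℕ) {K d m : α → ℕ} {c : α → List Bool} (hK : UPoly K) (hc : Poly c)
    (hd : UPoly d) (hm : UPoly m) : UPoly (fun a => levc (K a) c₀ (c a) (d a) (m a)) := by
  have h1 : UPoly (fun a => c₀ + 2 * (c a).length + d a) :=
    UPoly.add (UPoly.add (UPoly.const c₀) (UPoly.mul (UPoly.const 2) (UPoly.length hc))) hd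
  exact upoly_dbl hK (upoly_dbl hK (upoly_dbl hK h1 hm) (UPoly.const 1)) (UPoly.const 1)

lemma poly_trues {n : α → ℕ} (hn : UPoly n) : NPC.Poly (fun a => List.replicate (n a) true) :=
  (NPC.Poly.map hn (F := fun _ _ => true) (NPC.Poly.const true)).congr fun a => by simp

lemma poly_pairBits {x w : α → List Bool} (hx : Poly x) (hw : Poly w) :
    NPC.Poly (fun a => pairBits (x a) (w a)) := by
  have h1 : NPC.Poly (fun a => (x a).flatMap fun b => [true, b]) :=
    NPC.Poly.flatMap (F := fun _ b => [true, b]) hx
      (NPC.Poly.cons (NPC.Poly.const true) (NPC.Poly.cons (NPC.Poly.snd NPC.Poly.id) (NPC.Poly.const [])))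
  exact NPC.Poly.append h1 (NPC.Poly.cons (NPC.Poly.const false) hw)

end poly

/-- the guide string with the level cut at `t + 1` -/
def gc (c₀ : ℕ) (a : List Bool × List Unit × List Unit × List Unit) : List Bool :=
  List.replicate (levc (a.2.2.2.length + 1) c₀ a.1 a.2.1.length (a.2.2.1.length + 1)) true ++
    false :: pairBits a.1 (pairBits (List.replicate a.2.1.length true)
      (List.replicate a.2.2.1.length true))

lemma poly_gc (c₀ : ℕ) : NPC.Poly (gc c₀) := by
  have h1 : NPC.Poly (fun a : List Bool × List Unit × List Unit × List Unit => a.1) := NPC.Poly.fst NPC.Poly.id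
  have h2 : UPoly (fun a : List Bool × List Unit × List Unit × List Unit => a.2.1.length) :=
    UPoly.length (NPC.Poly.fst (NPC.Poly.snd NPC.Poly.id))
  have h3 : UPoly (fun a : List Bool × List Unit × List Unit × List Unit => a.2.2.1.length) :=
    UPoly.length (NPC.Poly.fst (NPC.Poly.snd (NPC.Poly.snd NPC.Poly.id)))
  have h4 : UPoly (fun a : List Bool × List Unit × List Unit × List Unit => a.2.2.2.length) :=
    UPoly.length (NPC.Poly.snd (NPC.Poly.snd (NPC.Poly.snd NPC.Poly.id)))
  exact NPC.Poly.append (poly_trues (upoly_levc c₀ (h4.add (UPoly.const 1)) h1 h2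
    (h3.add (UPoly.const 1)))) (NPC.Poly.cons (NPC.Poly.const false)
      (poly_pairBits h1 (poly_pairBits (poly_trues h2) (poly_trues h3))))

theorem p_gamc : P_gamc := by
  intro c₀
  constructor
  · have h4 : NPC.Poly (fun a : List Bool × List Unit × List Unit × List Unit => a.2.2.2.length) :=
      NPC.Poly.length (NPC.Poly.snd (NPC.Poly.snd (NPC.Poly.snd NPC.Poly.id)))
    have h1 : NPC.Poly (fun a : List Bool × List Unit × List Unit × List Unit =>
        if (gc c₀ a).length ≤ a.2.2.2.length then some (gc c₀ a) else none) :=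
      NPC.Poly.ite (NPC.Poly.decide_le (NPC.Poly.length (poly_gc c₀)) h4) (NPC.Poly.some (poly_gc c₀))
        (NPC.Poly.const none)
    refine h1.congr fun a => ?_
    obtain ⟨c, d, m, t⟩ := a
    by_cases h : lev c₀ (c, d.length) (m.length + 1) ≤ t.length
    · have e : gc c₀ (c, d, m, t) = gam c₀ (c, d.length) m.length := by
        unfold gc gam
        rw [levc_eq]
        simp only
        rw [min_eq_left (by omega)]
      simp only [e]
    · have h2 : ¬ (gc c₀ (c, d, m, t)).length ≤ t.length := by
        unfold gc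
        rw [levc_eq]
        simp only [List.length_append, List.length_replicate]
        rw [min_eq_right (by omega)]
        omega
      have h3 : ¬ (gam c₀ (c, d.length) m.length).length ≤ t.length := by
        unfold gam
        simp only [List.length_append, List.length_replicate]
        omega
      simp only [if_neg h2, if_neg h3]
  · have h1 : NPC.Poly (fun a : List Bool × List Unit × List Unit × List Unit => a.1) :=
      NPC.Poly.fst NPC.Poly.id
    have h2 : UPoly (fun a : List Bool × List Unit × List Unit × List Unit => a.2.1.length) :=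
      UPoly.length (NPC.Poly.fst (NPC.Poly.snd NPC.Poly.id))
    have h3 : UPoly (fun a : List Bool × List Unit × List Unit × List Unit => a.2.2.1.length) :=
      UPoly.length (NPC.Poly.fst (NPC.Poly.snd (NPC.Poly.snd NPC.Poly.id)))
    have h4 : UPoly (fun a : List Bool × List Unit × List Unit × List Unit => a.2.2.2.length) :=
      UPoly.length (NPC.Poly.snd (NPC.Poly.snd (NPC.Poly.snd NPC.Poly.id)))
    refine (NPC.Poly.decide_le h4.toPoly (upoly_levc c₀ h4 h1 h2 h3).toPoly).congr fun a => ?_
    rw [levc_eq]
    congr 1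
    simp

end Pool.Agent.W2helper17.PR
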